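import Mathlib

/-!
# A maximal ideal is not a union of few smaller ideals
-/

set_option autoImplicit false

open IsLocalRing

namespace EA7.C50

/-- every map from `k` to `I` has an infinite fibre -/
def Few (k I : Type) : Prop := ∀ F : k → I, ∃ j, {t | F t = j}.Infinite

theorem Few.of_lt {k I : Type} [Infinite I] (h : Cardinal.mk I < Cardinal.mk k) : Few k I := by
  intro F
  have : Infinite k :=
    Cardinal.infinite_iff.2 ((Cardinal.infinite_iff.1 (inferInstanceAs (Infinite I))).trans h.le)
  obtain ⟨a, ha⟩ := Cardinal.exists_infinite_fiber F h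
  exact ⟨a, Set.infinite_coe_iff.1 ha⟩

theorem Few.list {k I : Type} [Infinite I] (h : Cardinal.mk I < Cardinal.mk k) :
    Few k (List I) := by
  apply Few.of_lt
  rwa [Cardinal.mk_list_eq_mk]

/-- covering lemma -/
theorem not_few_cover {R I : Type} [CommRing R] [IsNoetherianRing R] [IsLocalRing R]
    (hk : Few (ResidueField R) I) (J : I → Ideal R)
    (hJ : ∀ n, ¬ maximalIdeal R ≤ J n)
    (hcov : ∀ x ∈ maximalIdeal R, ∃ n, x ∈ J n) : False := by
  classical
  obtain ⟨s, y, hy⟩ := (Submodule.fg_iff_exists_fin_generating_family).1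
    (IsNoetherian.noetherian (maximalIdeal R))
  have hym : ∀ i, y i ∈ maximalIdeal R := fun i => by
    rw [← hy]; exact Submodule.subset_span ⟨i, rfl⟩
  set τ : ResidueField R → R := Function.surjInv (residue_surjective (R := R)) with hτ
  have hτ' : ∀ t, residue R (τ t) = t := Function.surjInv_eq residue_surjective
  set x : ResidueField R → R := fun t => ∑ i : Fin s, τ t ^ (i : ℕ) * y i with hx
  have hxm : ∀ t, x t ∈ maximalIdeal R := fun t =>
    Ideal.sum_mem _ fun i _ => Ideal.mul_mem_left _ _ (hym i)
  choose n hn using fun t => hcov (x t) (hxm t)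
  -- an infinite fibre
  obtain ⟨j, hj⟩ : ∃ j, {t | n t = j}.Infinite := hk n
  have := hj.to_subtype
  set e := Infinite.natEmbedding {t | n t = j} with he
  set v : Fin s → R := fun i => τ (e i : ResidueField R) with hv
  set V := Matrix.vandermonde v with hV
  have hdet : IsUnit V.det := by
    rw [hV, Matrix.det_vandermonde]
    rw [IsUnit.prod_iff]
    intro a _
    rw [IsUnit.prod_iff]
    intro b hb
    rw [Finset.mem_Ioi] at hb
    rw [← IsLocalRing.residue_ne_zero_iff_isUnit, map_sub, hv]
    simp only [hτ']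
    rw [sub_ne_zero]
    intro h
    have h1 : e (b : ℕ) = e (a : ℕ) := Subtype.ext h
    have h2 := e.injective h1
    exact hb.ne' (Fin.ext h2)
  have hmul : ∀ i, (V.mulVec y) i = x (e i) := by
    intro i
    simp only [Matrix.mulVec, dotProduct, hV, Matrix.vandermonde_apply, hx, hv]
  have hmem : ∀ i, (V.mulVec y) i ∈ J j := by
    intro i
    rw [hmul]
    have h1 := hn (e i : ResidueField R)
    have h2 : n (e i : ResidueField R) = j := (e i).2
    rwa [h2] at h1
  apply hJ j
  rw [← hy, Submodule.span_le]
  rintro _ ⟨i, rfl⟩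
  have h1 : V.det • y = V.adjugate.mulVec (V.mulVec y) := by
    rw [Matrix.mulVec_mulVec, Matrix.adjugate_mul, Matrix.smul_mulVec, Matrix.one_mulVec]
  have h2 : V.det * y i ∈ J j := by
    have := congrFun h1 i
    simp only [Pi.smul_apply, smul_eq_mul] at this
    rw [this]
    simp only [Matrix.mulVec, dotProduct]
    apply Ideal.sum_mem
    intro l _
    exact Ideal.mul_mem_left _ _ (hmem l)
  obtain ⟨u, hu⟩ := hdet
  rw [← hu] at h2
  have := Ideal.mul_mem_left (J j) ((u⁻¹ : Rˣ) : R) h2
  rwa [← mul_assoc, Units.inv_mul, one_mul] at this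

end EA7.C50
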