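import Pool.Agent.Lib.MP_ea7a64_al_h91.DimOne
import Pool.Agent.Lib.MP_ea7a64_al_helper11.F
import Pool.Agent.Lib.MP_ea7a64_al_c50.Alg

set_option autoImplicit false

open IsLocalRing
open Pool.Agent.EA7.H91 (W one_mem_W self_mem_W iso_mul)

namespace EA7.C50

section

variable {R : Type} [CommRing R] [IsNoetherianRing R] [IsLocalRing R]

/-- general form: `B` is a suitable overring -/
theorem dim_one_of_ring {I : Type} (hk : Few (ResidueField R) I) (w : R) (j : ℕ)
    (B : Type) [CommRing B] [Nontrivial B] [Algebra R B] [Module.Finite R B]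
    (hreg : ∀ x : B, w • x = 0 → x = 0)
    (hfrac : ∀ x : B, ∃ r : R, (w ^ j) • x = r • (1 : B))
    (hm : ∀ r ∈ maximalIdeal R, ∃ y : B, r • (1 : B) = w • y)
    (b1 b2 b3 : B)
    (hind : ∀ r0 r1 r2 r3 : R, ∀ y : B,
      r0 • (1 : B) + r1 • b1 + r2 • b2 + r3 • b3 = w • y →
        r0 ∈ maximalIdeal R ∧ r1 ∈ maximalIdeal R ∧ r2 ∈ maximalIdeal R ∧ r3 ∈ maximalIdeal R)
    (g : I → ModuleCat.{0} R)
    (hg : ∀ M : ModuleCat.{0} R, Module.Finite R M → Nontrivial M → IsSMulRegular M w →
      ∃ n, Nonempty (M ≃ₗ[R] g n)) : False := by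
  -- indices
  have hW : ∀ a : B, ∃ n, Nonempty (W w a ≃ₗ[R] g n) := by
    intro a
    refine hg (ModuleCat.of R (W w a)) ?_ ?_ ?_
    · have : IsNoetherian R B := isNoetherian_of_isNoetherianRing_of_finite R B
      change Module.Finite R (W w a)
      infer_instance
    · change Nontrivial (W w a)
      refine ⟨⟨⟨1, one_mem_W w a⟩, 0, ?_⟩⟩
      intro h
      exact one_ne_zero (congrArg (fun t : W w a => (t : B)) h)
    · intro x y hxy
      have hxy' : w • (x : W w a) = w • (y : W w a) := hxy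
      have h1 : w • ((x : W w a) - (y : W w a) : W w a) = 0 := by
        rw [smul_sub, hxy', sub_self]
      have h2 : w • (((x : W w a) - (y : W w a) : W w a) : B) = 0 := by
        rw [← Submodule.coe_smul, h1, Submodule.coe_zero]
      have h3 := hreg _ h2
      exact sub_eq_zero.mp (Subtype.ext h3 : ((x : W w a) - (y : W w a) : W w a) = 0)
  choose N hN using hW
  -- the quotient algebra
  let I' : Ideal B := Ideal.span {algebraMap R B w}
  let A : Type := B ⧸ I'
  let π : B →+* A := Ideal.Quotient.mk I'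
  have hπw : ∀ y : B, π (w • y) = 0 := by
    intro y
    apply Ideal.Quotient.eq_zero_iff_mem.mpr
    rw [Algebra.smul_def, mul_comm]
    exact Ideal.mul_mem_left _ _ (Ideal.mem_span_singleton_self _)
  have hπ0 : ∀ x : B, π x = 0 → ∃ y : B, x = w • y := by
    intro x hx
    have := Ideal.Quotient.eq_zero_iff_mem.mp hx
    obtain ⟨y, hy⟩ := Ideal.mem_span_singleton'.mp this
    exact ⟨y, by rw [Algebra.smul_def, mul_comm, hy]⟩
  have hker : ∀ r ∈ maximalIdeal R, (π.comp (algebraMap R B)) r = 0 := by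
    intro r hr
    obtain ⟨y, hy⟩ := hm r hr
    rw [RingHom.comp_apply, Algebra.algebraMap_eq_smul_one, hy, hπw]
  let G : ResidueField R →+* A := Ideal.Quotient.lift (maximalIdeal R) (π.comp (algebraMap R B)) hker
  let _ : Algebra (ResidueField R) A := G.toAlgebra
  have hsm : ∀ (r : R) (x : A), (residue R r) • x = π (algebraMap R B r) * x := by
    intro r x
    rfl
  have hsm' : ∀ (r : R) (x : B), π (r • x) = (residue R r) • π x := by
    intro r x
    rw [hsm, Algebra.smul_def, map_mul]
  have hres : ∀ p : ResidueField R, ∃ r : R, residue R r = p := residue_surjective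
  let lift : A → B := Function.surjInv Ideal.Quotient.mk_surjective
  have hlift : ∀ α : A, π (lift α) = α := Function.surjInv_eq Ideal.Quotient.mk_surjective
  have hWπ : ∀ (b x : B), x ∈ W w b →
      ∃ p q : ResidueField R, π x = p • (1 : A) + q • π b := by
    rintro b x ⟨r, s, y, rfl⟩
    refine ⟨residue R r, residue R s, ?_⟩
    rw [map_add, map_add, hπw, add_zero, hsm', hsm', map_one]
  refine alg_part (k := ResidueField R) (A := A) hk (fun α => N (lift α)) ?_ (π b1) (π b2) (π b3) ?_
  · intro α β hαβ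
    have e1 := hN (lift α)
    have e2 := hN (lift β)
    have hαβ' : N (lift α) = N (lift β) := hαβ
    rw [hαβ'] at e1
    obtain ⟨e1⟩ := e1
    obtain ⟨e2⟩ := e2
    obtain ⟨c, z, hc, hca, hcz⟩ := iso_mul hreg hfrac (lift α) (lift β) (e1.trans e2.symm)
    refine ⟨π c, ?_, ?_, ?_⟩
    · exact IsUnit.of_mul_eq_one (π z) (by rw [← map_mul, hcz, map_one])
    · have := hWπ _ _ hc
      rwa [hlift] at this
    · have := hWπ _ _ hca
      rwa [hlift, map_mul, hlift] at this
  · intro p q r s h
    obtain ⟨p, rfl⟩ := hres p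
    obtain ⟨q, rfl⟩ := hres q
    obtain ⟨r, rfl⟩ := hres r
    obtain ⟨s, rfl⟩ := hres s
    have h1 : π (p • (1 : B) + q • b1 + r • b2 + s • b3) = 0 := by
      rw [map_add, map_add, map_add, hsm', hsm', hsm', hsm', map_one]
      exact h
    obtain ⟨y, hy⟩ := hπ0 _ h1
    obtain ⟨h2, h3, h4, h5⟩ := hind p q r s y hy
    exact ⟨(residue_eq_zero_iff p).mpr h2, (residue_eq_zero_iff q).mpr h3,
      (residue_eq_zero_iff r).mpr h4, (residue_eq_zero_iff s).mpr h5⟩

/-- Task L (dimension one). -/
theorem dim_one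
    {I : Type} (hk : Few (ResidueField R) I) (w : R) (hw : w ∈ maximalIdeal R)
    (hreg : w ∈ nonZeroDivisors R) (j : ℕ)
    (hj : maximalIdeal R ^ (j + 1) = Ideal.span {w} * maximalIdeal R ^ j)
    (hsq : ¬ maximalIdeal R ^ 2 ≤ Ideal.span {w})
    (hgen : ∀ x y : R, maximalIdeal R ≠ Ideal.span {x, y})
    (g : I → ModuleCat.{0} R)
    (hg : ∀ M : ModuleCat.{0} R, Module.Finite R M → Nontrivial M → IsSMulRegular M w →
      ∃ n, Nonempty (M ≃ₗ[R] g n)) : False := by
  let Q := Localization.Away w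
  have hu : IsUnit (algebraMap R Q w) := IsLocalization.Away.algebraMap_isUnit w
  have huj : IsUnit (algebraMap R Q (w ^ j)) := by rw [map_pow]; exact hu.pow j
  have hinj : Function.Injective (algebraMap R Q) :=
    IsLocalization.injective Q (M := Submonoid.powers w) (Submonoid.powers_le.mpr hreg)
  have hwj : w ^ j ∈ maximalIdeal R ^ j := Ideal.pow_mem_pow hw j
  let B : Subalgebra R Q :=
    { carrier := {q | ∃ z ∈ maximalIdeal R ^ j, algebraMap R Q (w ^ j) * q = algebraMap R Q z}
      mul_mem' := by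
        rintro q q' ⟨z, hz, e⟩ ⟨z', hz', e'⟩
        obtain ⟨u, hu, hu2⟩ := Pool.Agent.EA7.H91.mul_mem hj hz hz'
        refine ⟨u, hu, huj.mul_left_cancel ?_⟩
        rw [← map_mul, hu2, map_mul, ← e, ← e']
        ring
      add_mem' := by
        rintro q q' ⟨z, hz, e⟩ ⟨z', hz', e'⟩
        exact ⟨z + z', Ideal.add_mem _ hz hz', by rw [mul_add, e, e', map_add]⟩
      algebraMap_mem' := by
        intro r
        exact ⟨w ^ j * r, Ideal.mul_mem_right _ _ hwj, by rw [map_mul]⟩ }
  have hB : ∀ q : Q, q ∈ B ↔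
      ∃ z ∈ maximalIdeal R ^ j, algebraMap R Q (w ^ j) * q = algebraMap R Q z := fun q => Iff.rfl
  have hcoe : ∀ (r : R) (x : B), ((r • x : B) : Q) = algebraMap R Q r * (x : Q) :=
    fun r x => by rw [Subalgebra.coe_smul, Algebra.smul_def]
  have hone : ((1 : B) : Q) = 1 := rfl
  -- fractions
  have hfr : ∀ z ∈ maximalIdeal R ^ j, ∃ b : B, algebraMap R Q (w ^ j) * (b : Q) =
      algebraMap R Q z := by
    intro z hz
    have e : algebraMap R Q (w ^ j) * ((huj.unit⁻¹ : Qˣ) * algebraMap R Q z) = algebraMap R Q z := by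
      rw [← mul_assoc, IsUnit.mul_val_inv, one_mul]
    exact ⟨⟨(huj.unit⁻¹ : Qˣ) * algebraMap R Q z, z, hz, e⟩, e⟩
  have hregB : ∀ x : B, w • x = 0 → x = 0 := by
    intro x hx
    apply Subtype.ext
    have h1 : algebraMap R Q w * (x : Q) = 0 := by
      rw [← hcoe, hx]; rfl
    exact hu.mul_left_cancel (by rw [h1]; simp)
  have hfin : Module.Finite R B := by
    let ψ : (maximalIdeal R ^ j : Ideal R) →ₗ[R] B :=
      { toFun := fun z => ⟨(huj.unit⁻¹ : Qˣ) * algebraMap R Q z, z, z.2, by
          rw [← mul_assoc, IsUnit.mul_val_inv, one_mul]⟩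
        map_add' := by
          intro z z'
          apply Subtype.ext
          simp only [Submodule.coe_add, map_add, mul_add, Subalgebra.coe_add]
        map_smul' := by
          intro r z
          apply Subtype.ext
          rw [RingHom.id_apply, hcoe]
          simp only [Submodule.coe_smul, smul_eq_mul, map_mul]
          ring }
    apply Module.Finite.of_surjective ψ
    rintro ⟨q, z, hz, e⟩
    refine ⟨⟨z, hz⟩, ?_⟩
    apply Subtype.ext
    change (huj.unit⁻¹ : Qˣ) * algebraMap R Q z = q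
    rw [← e, ← mul_assoc, IsUnit.val_inv_mul, one_mul]
  have : Nontrivial B := by
    refine ⟨⟨1, 0, ?_⟩⟩
    intro h
    have h1 : (1 : Q) = 0 := congrArg (fun t : B => (t : Q)) h
    have h2 : algebraMap R Q 1 = algebraMap R Q 0 := by rw [map_one, map_zero, h1]
    exact one_ne_zero (hinj h2)
  obtain ⟨z1, hz1, z2, hz2, z3, hz3, hz⟩ := Pool.Agent.EA7.H91.exists_indep hw hreg j hj hsq hgen
  obtain ⟨b1, hb1⟩ := hfr z1 hz1
  obtain ⟨b2, hb2⟩ := hfr z2 hz2
  obtain ⟨b3, hb3⟩ := hfr z3 hz3
  refine dim_one_of_ring hk w j B hregB ?_ ?_ b1 b2 b3 ?_ g hg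
  · rintro ⟨q, z, hz, e⟩
    refine ⟨z, Subtype.ext ?_⟩
    rw [hcoe, hcoe, hone, mul_one]
    exact e
  · intro r hr
    have h : w ^ j * r ∈ maximalIdeal R ^ (j + 1) := by
      rw [pow_succ]; exact Ideal.mul_mem_mul hwj hr
    rw [hj, Ideal.mem_span_singleton_mul] at h
    obtain ⟨z, hz, hz2⟩ := h
    obtain ⟨y, hy⟩ := hfr z hz
    refine ⟨y, Subtype.ext (huj.mul_left_cancel ?_)⟩
    rw [hcoe, hcoe, hone, mul_one, ← map_mul, ← hz2, map_mul, ← hy]
    ring
  · intro r0 r1 r2 r3 y hy
    obtain ⟨u, hu, hu2⟩ := y.2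
    apply hz r0 r1 r2 r3 u hu
    apply hinj
    have h1 : algebraMap R Q r0 + algebraMap R Q r1 * (b1 : Q) + algebraMap R Q r2 * (b2 : Q) +
        algebraMap R Q r3 * (b3 : Q) = algebraMap R Q w * (y : Q) := by
      have := congrArg (fun t : B => (t : Q)) hy
      simp only [Subalgebra.coe_add] at this
      rw [hcoe, hcoe, hcoe, hcoe, hcoe, hone, mul_one] at this
      exact this
    simp only [map_add, map_mul]
    rw [← hb1, ← hb2, ← hb3, ← hu2]
    linear_combination (algebraMap R Q (w ^ j)) * h1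

/-- Task F2 (d = 0). -/
theorem dim_zero {I : Type} (hk : Few (ResidueField R) I)
    (hprin : ∀ a : R, maximalIdeal R ≠ Ideal.span {a}) (f : I → ModuleCat.{0} R)
    (hf : ∀ M : ModuleCat.{0} R, Module.Finite R M →
      (Nontrivial M ∧ ∀ N₁ N₂ : Submodule R M, IsCompl N₁ N₂ → N₁ = ⊥ ∨ N₂ = ⊥) →
      ∃ n, Nonempty (M ≃ₗ[R] f n)) : False := by
  classical
  refine not_few_cover hk (fun n => if maximalIdeal R ≤ Module.annihilator R (f n) then ⊥
    else Module.annihilator R (f n)) ?_ ?_
  · intro n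
    by_cases h : maximalIdeal R ≤ Module.annihilator R (f n)
    · rw [if_pos h]
      intro h2
      apply hprin 0
      rw [Ideal.span_singleton_eq_bot.2 rfl]
      exact le_bot_iff.1 h2
    · rw [if_neg h]
      exact h
  · intro a ha
    have hle : Ideal.span {a} ≤ maximalIdeal R := (Ideal.span_singleton_le_iff_mem _).2 ha
    have hne : (Ideal.span {a} : Ideal R) ≠ ⊤ := fun h =>
      (maximalIdeal.isMaximal R).ne_top (top_le_iff.1 (h ▸ hle))
    obtain ⟨n, ⟨e⟩⟩ := hf (ModuleCat.of R (R ⧸ Ideal.span {a}))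
      (inferInstanceAs (Module.Finite R (R ⧸ Ideal.span {a})))
      ⟨Ideal.Quotient.nontrivial_iff.2 hne, by
        intro N₁ N₂ h
        change Submodule R (R ⧸ Ideal.span {a}) at N₁ N₂
        have key : ∀ N₁ N₂ : Submodule R (R ⧸ Ideal.span {a}), IsCompl N₁ N₂ → ∀ r : R, IsUnit r →
            Ideal.Quotient.mk (Ideal.span {a}) r ∈ N₁ → N₂ = ⊥ := by
          intro N₁ N₂ h r hr hmem
          obtain ⟨u, rfl⟩ := hr
          have h1 : (1 : R ⧸ Ideal.span {a}) ∈ N₁ := by
            have := N₁.smul_mem (↑u⁻¹ : R) hmem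
            have e1 : (↑u⁻¹ : R) • Ideal.Quotient.mk (Ideal.span {a}) (u : R) = 1 := by
              change Ideal.Quotient.mk (Ideal.span {a}) ((↑u⁻¹ : R) * (u : R)) = 1
              simp
            rwa [e1] at this
          have h2 : N₁ = ⊤ := by
            rw [eq_top_iff]
            rintro y -
            obtain ⟨z, rfl⟩ := Ideal.Quotient.mk_surjective y
            have := N₁.smul_mem z h1
            have e1 : z • (1 : R ⧸ Ideal.span {a}) = Ideal.Quotient.mk (Ideal.span {a}) z := by
              change Ideal.Quotient.mk (Ideal.span {a}) (z * 1) = _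
              simp
            rwa [e1] at this
          have h3 := h.inf_eq_bot
          rw [h2, top_inf_eq] at h3
          exact h3
        have h1 : (1 : R ⧸ Ideal.span {a}) ∈ N₁ ⊔ N₂ := by
          rw [h.sup_eq_top]; trivial
        obtain ⟨e1, he1, e2, he2, h12⟩ := Submodule.mem_sup.1 h1
        obtain ⟨r1, rfl⟩ := Ideal.Quotient.mk_surjective e1
        obtain ⟨r2, rfl⟩ := Ideal.Quotient.mk_surjective e2
        have h3 : r1 + r2 - 1 ∈ Ideal.span {a} := by
          rw [← Ideal.Quotient.eq_zero_iff_mem, map_sub, map_add, map_one, sub_eq_zero]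
          exact h12
        have h4 : IsUnit (r1 + r2) := by
          by_contra hu
          have h5 : r1 + r2 ∈ maximalIdeal R := (mem_maximalIdeal _).2 hu
          have h6 : (1 : R) ∈ maximalIdeal R := by
            have h7 := (maximalIdeal R).sub_mem h5 (hle h3)
            rwa [sub_sub_cancel] at h7
          exact (maximalIdeal.isMaximal R).ne_top ((Ideal.eq_top_iff_one _).2 h6)
        rcases isUnit_or_isUnit_of_isUnit_add h4 with h5 | h5
        · exact Or.inr (key N₁ N₂ h r1 h5 he1)
        · exact Or.inl (key N₂ N₁ h.symm r2 h5 he2)⟩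
    have hann : Module.annihilator R (f n) = Ideal.span {a} := by
      rw [← e.annihilator_eq]
      exact Ideal.annihilator_quotient
    refine ⟨n, ?_⟩
    simp only [hann]
    rw [if_neg]
    · exact Ideal.mem_span_singleton_self a
    · intro h
      exact hprin a (le_antisymm h hle)


end

end EA7.C50
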