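import Pool.Agent.Lib.MP_ea7a64_al_h50.Final
import Pool.Agent.Lib.MP_ea7a64_al_c50.Dim
import Pool.Agent.Lib.MP_ea7a64_al_c50.Enum

/-!
# Many maximal Cohen-Macaulay modules over a Gorenstein ring which is not a hypersurface
-/

set_option autoImplicit false
set_option linter.unusedSectionVars false

open IsLocalRing RingTheory.Sequence

namespace EA7.C50

section

variable {R : Type} [CommRing R] [IsNoetherianRing R] [IsLocalRing R]

/-- case `d = 1` -/
theorem case_one {I : Type} (hinf : Infinite (ResidueField R))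
    (hk : Few (ResidueField R) (List I)) (rs : List R)
    (hm : ∀ r ∈ rs, r ∈ maximalIdeal R) (hreg : IsWeaklyRegular R rs)
    (hlen : (rs.length : WithBot ℕ∞) = ringKrullDim R) (h1 : rs.length = 1)
    (H1 : ∀ i, i ≠ 1 → V (⊥ : Submodule R R) i) (hNG : NG R 2)
    (f : I → ModuleCat.{0} R) (hf : ∀ M : ModuleCat.{0} R, Module.Finite R M →
          (Nontrivial M ∧ ∀ N₁ N₂ : Submodule R M, IsCompl N₁ N₂ → N₁ = ⊥ ∨ N₂ = ⊥) →
          MCM R M → ∃ n : I, Nonempty (M ≃ₗ[R] f n)) : False := by
  obtain ⟨r, rfl⟩ := List.length_eq_one_iff.1 h1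
  have hr : r ∈ maximalIdeal R := hm r (by simp)
  have hrreg : r ∈ nonZeroDivisors R := by
    have h2 := (isWeaklyRegular_cons_iff R r []).1 hreg
    rw [mem_nonZeroDivisors_iff_right]
    intro z hz
    apply h2.1
    change r • z = r • 0
    rw [smul_eq_mul, mul_comm, hz, smul_zero]
  have hart : IsArtinianRing (R ⧸ Ideal.span {r}) := by
    have h2 := artinian_quot [r] hm hreg hlen
    rwa [Ideal.ofList_singleton] at h2
  obtain ⟨w, hw, j, hj⟩ := exists_reduction hinf r hr hrreg hart
  have hwreg : w ∈ nonZeroDivisors R := by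
    have h2 : r ^ (j + 1) ∈ Ideal.span {w} := by
      have h3 : r ^ (j + 1) ∈ maximalIdeal R ^ (j + 1) := Ideal.pow_mem_pow hr _
      rw [hj] at h3
      exact (Ideal.mul_le_left : Ideal.span {w} * maximalIdeal R ^ j ≤ Ideal.span {w}) h3
    obtain ⟨c, hc⟩ := Ideal.mem_span_singleton'.1 h2
    have h4 : r ^ (j + 1) ∈ nonZeroDivisors R := pow_mem hrreg _
    rw [mem_nonZeroDivisors_iff_right]
    intro z hz
    apply (mem_nonZeroDivisors_iff_right.1 h4) z
    rw [← hc, mul_left_comm, hz, mul_zero]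
  have hgen : ∀ x y : R, maximalIdeal R ≠ Ideal.span {x, y} := by
    intro x y h
    refine hNG ![x, y] ?_ ?_
    · intro i
      fin_cases i
      · simp only [Fin.zero_eta, Fin.isValue, Matrix.cons_val_zero]
        rw [h]; exact Ideal.subset_span (by simp)
      · simp only [Fin.mk_one, Fin.isValue, Matrix.cons_val_one]
        rw [h]; exact Ideal.subset_span (by simp)
    · rw [Matrix.range_cons, Matrix.range_cons, Matrix.range_empty]
      rw [h]
      apply Ideal.span_mono
      intro z hz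
      rcases hz with rfl | hz
      · simp
      · rw [Set.mem_singleton_iff] at hz
        subst hz
        simp
  have hsq : ¬ maximalIdeal R ^ 2 ≤ Ideal.span {w} := by
    intro hsq
    have hK2 : V (maximalIdeal R ^ 2 : Submodule R R) 1 := K2 1 R H1 hNG
    -- `y z / w`
    have hmain : ∀ y ∈ maximalIdeal R, y ∈ maximalIdeal R ^ 2 ⊔ Ideal.span {w} := by
      intro y hy
      have hdiv : ∀ z : maximalIdeal R, ∃ c : R, c * w = y * z.1 := by
        intro z
        apply Ideal.mem_span_singleton'.1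
        apply hsq
        rw [pow_two]
        exact Ideal.mul_mem_mul hy z.2
      choose c hc using hdiv
      have hinj : ∀ a b : R, a * w = b * w → a = b := fun a b hab => by
        have : (a - b) * w = 0 := by rw [sub_mul, hab, sub_self]
        exact sub_eq_zero.1 ((mem_nonZeroDivisors_iff_right.1 hwreg) _ this)
      let φ : maximalIdeal R →ₗ[R] R :=
        { toFun := c
          map_add' := fun a b => by
            apply hinj
            rw [hc, add_mul, hc, hc, ← mul_add]
            rfl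
          map_smul' := fun t a => by
            apply hinj
            rw [hc, RingHom.id_apply, smul_eq_mul, mul_assoc, hc]
            change y * (t * a.1) = _
            ring }
      let resL : R →ₗ[R] ResidueField R := Algebra.linearMap R (ResidueField R)
      have hses : SES ((maximalIdeal R).subtype : maximalIdeal R →ₗ[R] R) resL := by
        refine ⟨Subtype.val_injective, residue_surjective, ?_⟩
        intro y
        constructor
        · intro hy
          exact ⟨⟨y, (residue_eq_zero_iff y).1 hy⟩, rfl⟩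
        · rintro ⟨z, rfl⟩
          exact (residue_eq_zero_iff _).2 z.2
      obtain ⟨b, hb⟩ := EZ.exact (M := (kk R).C) hK2 hses φ
      have h2 := hb ⟨w, hw⟩
      have h3 : φ ⟨w, hw⟩ = y := hinj _ _ (hc ⟨w, hw⟩)
      have h4 : b w = w * b 1 := by
        have : b w = b (w • (1 : R)) := by simp
        rw [this, map_smul, smul_eq_mul]
      rw [h3, Submodule.subtype_apply] at h2
      rw [h4] at h2
      have h5 : y = (y - w * b 1) + b 1 * w := by ring
      rw [h5]
      exact Submodule.add_mem_sup h2 (Ideal.mul_mem_left _ _ (Ideal.mem_span_singleton_self w))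
    refine (hNG.mono (n' := 1) (by omega)).nakayama (fun _ => w) (fun _ => hw) ?_
    rw [Set.range_const]
    exact hmain
  obtain ⟨g, hg⟩ := EA7.C50.enum_all (MCM R) (fun M hM N₁ N₂ hc => MCM.sub M hM N₁ N₂ hc) f hf
  refine EA7.C50.dim_one hk w hw hwreg j hj hsq hgen g (fun M hfin hnt hMreg => ?_)
  refine hg M hfin ⟨[w], by simpa using hw, weaklyRegular_singleton w hMreg, ?_⟩
  rw [← hlen]
  simp

/-- case `d ≥ 2` -/
theorem case_two {I : Type} (hinf : Infinite (ResidueField R))
    (hk : Few (ResidueField R) I) (rs : List R)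
    (hm : ∀ r ∈ rs, r ∈ maximalIdeal R) (hreg : IsWeaklyRegular R rs)
    (hlen : (rs.length : WithBot ℕ∞) = ringKrullDim R) (d' : ℕ) (h1 : rs.length = d' + 2)
    (H1 : ∀ i, i ≠ d' + 2 → V (⊥ : Submodule R R) i) (H2 : ¬ V (⊥ : Submodule R R) (d' + 2))
    (hNG : NG R (d' + 3))
    (f : I → ModuleCat.{0} R) (hf : ∀ M : ModuleCat.{0} R, Module.Finite R M →
          (Nontrivial M ∧ ∀ N₁ N₂ : Submodule R M, IsCompl N₁ N₂ → N₁ = ⊥ ∨ N₂ = ⊥) →
          MCM R M → ∃ n : I, Nonempty (M ≃ₗ[R] f n)) : False := by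
  classical
  have hd2 : 2 ≤ ringKrullDim R := by
    rw [← hlen, h1]
    exact_mod_cast (by omega : 2 ≤ d' + 2)
  have hPc : Pc R (Sy (kk R) (d' + 1 + 2)).C :=
    T1 (Sy (kk R) (d' + 2)) (H1 (d' + 3) (by omega))
      ((Ac_sy (d' + 2)).not_surj (hNG.mono (by omega)))
  have hPc' : Pc R (Sy (kk R) (d' + 1)).C :=
    T1 (Sy (kk R) d') (H1 (d' + 1) (by omega)) ((Ac_sy d').not_surj (hNG.mono (by omega)))
  have hK2 : V (maximalIdeal R ^ 2 : Submodule R R) (d' + 2) := K2 (d' + 2) R H1 hNG
  have hQc : Qc R (Sy (kk R) (d' + 1 + 1)).C := T3 (d' + 1) hK2 hPc'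
  have hnot : ¬ Pc R (Sy (kk R) (d' + 1 + 1)).C := T2 (d' + 1) hK2 H2
  have hEZ : EZ (⊥ : Submodule R R) (Sy (kk R) (d' + 1 + 1)).C := H1 (d' + 3) (by omega)
  have key : ∀ x ∈ maximalIdeal R, ∃ n, StabZero x (f n) ∧ ¬ maximalIdeal R ≤ stabAnn R (f n) := by
    intro x hx
    obtain ⟨p, hp, hxp, hpm, hart⟩ := exists_coheight_one_prime hd2 x hx
    have hple : p ≤ maximalIdeal R := IsLocalRing.le_maximalIdeal hp.ne_top
    obtain ⟨r, rs', hrp, hperm, hreg'⟩ := exists_perm rs hm hreg hlen p hp hpm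
    have hrm : r ∈ maximalIdeal R := hm r (hperm.subset (by simp))
    have hloc : IsLocalRing (R ⧸ p) := isLocalRing_quotI p hple
    have hdom : IsDomain (R ⧸ p) := Ideal.Quotient.isDomain p
    have hmap := map_maximalIdeal_quotI p hple
    have hrm' : Ideal.Quotient.mk p r ∈ maximalIdeal (R ⧸ p) := by
      rw [← hmap]; exact Ideal.mem_map_of_mem _ hrm
    have hrnz : Ideal.Quotient.mk p r ∈ nonZeroDivisors (R ⧸ p) := by
      rw [mem_nonZeroDivisors_iff_ne_zero]
      intro h
      exact hrp (Ideal.Quotient.eq_zero_iff_mem.1 h)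
    obtain ⟨wb, hwb, j, hj⟩ := exists_reduction (infinite_residue_quot p hple hinf)
      (Ideal.Quotient.mk p r) hrm' hrnz (hart r hrm hrp)
    obtain ⟨w, hw, rfl⟩ : ∃ w ∈ maximalIdeal R, Ideal.Quotient.mk p w = wb := by
      rw [← hmap, Ideal.mem_map_iff_of_surjective _ Ideal.Quotient.mk_surjective] at hwb
      exact hwb
    have hj' : maximalIdeal R ^ (j + 1) ≤ Ideal.span {w} * maximalIdeal R ^ j ⊔ p := by
      intro y hy
      have h2 : Ideal.Quotient.mk p y ∈ maximalIdeal (R ⧸ p) ^ (j + 1) := by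
        rw [← hmap, ← Ideal.map_pow]
        exact Ideal.mem_map_of_mem _ hy
      rw [hj, ← hmap, ← Ideal.map_pow, ← Set.image_singleton, ← Ideal.map_span, ← Ideal.map_mul,
        ← Ideal.mem_comap, Ideal.comap_map_of_surjective _ Ideal.Quotient.mk_surjective,
        ← RingHom.ker_eq_comap_bot, Ideal.mk_ker] at h2
      exact h2
    obtain ⟨N, hNnt, hNreg, hNp, hwp, hmN⟩ := exists_N p hp hpm w hw j hj'
    obtain ⟨e, q, he, hq, hker⟩ := exists_pow_quot N hNnt w hw hmN
    have hwN : ∀ x : N.C, w • x = 0 → x = 0 := by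
      intro y hy
      apply hNreg w hwp
      change w • y = w • 0
      rw [hy, smul_zero]
    have hwX : ¬ StabZero w (Sy N (d' + 1)).C :=
      main_theorem (kk R) (d' + 1) hPc hEZ hQc hnot w N e he hwN q hq hker
    have hxX : StabZero x (Sy N (d' + 1)).C :=
      (StabZero.of_smul_eq_zero (fun n => hNp x hxp n)).sy (d' + 1)
    have hlen' : (r :: rs').length = d' + 2 := by rw [hperm.length_eq, h1]
    have hXreg : IsWeaklyRegular (Sy N (d' + 1)).C (r :: rs') := by
      have h2 := Sy_regular N (r :: rs') hreg' 1 (by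
        simpa using weaklyRegular_singleton r (hNreg r hrp)) (d' + 1)
      rwa [List.take_of_length_le (by omega)] at h2
    have hMCM : MCM R (ModuleCat.of R (Sy N (d' + 1)).C) := by
      refine ⟨r :: rs', fun a ha => hm a (hperm.subset ha), hXreg, ?_⟩
      rw [← hlen, hperm.length_eq]
    obtain ⟨Y, hYfin, hYind, hYM, hxY, hwY⟩ := exists_indec (MCM R)
      (fun M hM N₁ N₂ hc => MCM.sub M hM N₁ N₂ hc) (ModuleCat.of R (Sy N (d' + 1)).C)
      (inferInstanceAs (Module.Finite R (Sy N (d' + 1)).C)) hMCM x w hxX hwX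
    obtain ⟨n, ⟨en⟩⟩ := hf Y hYfin hYind hYM
    refine ⟨n, hxY.equiv en, fun hle => hwY ?_⟩
    have h3 : StabZero w (f n) := hle hw
    exact h3.equiv en.symm
  refine not_few_cover hk
    (fun n => if maximalIdeal R ≤ stabAnn R (f n) then ⊥ else stabAnn R (f n)) ?_ ?_
  · intro n
    split_ifs with h
    · intro h2
      exact hNG (fun _ => 0) (fun _ => Submodule.zero_mem _) (h2.trans bot_le)
    · exact h
  · intro x hx
    obtain ⟨n, hn, hn'⟩ := key x hx
    refine ⟨n, ?_⟩
    rw [if_neg hn']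
    exact hn

end

/-- the version with an index set -/
theorem few_index (R : Type) [CommRing R] [IsNoetherianRing R] [IsLocalRing R] {I : Type}
    [Infinite I] (hI : Cardinal.mk I < Cardinal.mk (IsLocalRing.ResidueField R))
    (hG : ∃ rs : List R, (∀ r ∈ rs, r ∈ IsLocalRing.maximalIdeal R) ∧
          RingTheory.Sequence.IsWeaklyRegular R rs ∧
          (rs.length : WithBot ℕ∞) = ringKrullDim R ∧
          ∃ K : Ideal R, Ideal.ofList rs < K ∧
            ∀ K' : Ideal R, Ideal.ofList rs < K' → K ≤ K')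
    (f : I → ModuleCat.{0} R)
    (hf : ∀ M : ModuleCat.{0} R, Module.Finite R M →
          (Nontrivial M ∧ ∀ N₁ N₂ : Submodule R M, IsCompl N₁ N₂ → N₁ = ⊥ ∨ N₂ = ⊥) →
          (∃ rs : List R, (∀ r ∈ rs, r ∈ IsLocalRing.maximalIdeal R) ∧
            RingTheory.Sequence.IsWeaklyRegular M rs ∧
            (rs.length : WithBot ℕ∞) = ringKrullDim R) →
          ∃ n : I, Nonempty (M ≃ₗ[R] f n)) :
    (Module.finrank (IsLocalRing.ResidueField R) (IsLocalRing.CotangentSpace R) : WithBot ℕ∞)
        ≤ ringKrullDim R + 1 := by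
  have hinf : Infinite (ResidueField R) :=
    Cardinal.infinite_iff.2 ((Cardinal.infinite_iff.1 (inferInstanceAs (Infinite I))).trans hI.le)
  have hk : Few (ResidueField R) I := Few.of_lt hI
  have hk' : Few (ResidueField R) (List I) := Few.list hI
  obtain ⟨rs, hm, hreg, hlen, K, hK, hKmin⟩ := hG
  by_contra hcon
  rw [not_le, ← hlen] at hcon
  have hlt : rs.length + 1 <
      Module.finrank (IsLocalRing.ResidueField R) (IsLocalRing.CotangentSpace R) := by
    exact_mod_cast hcon
  have hNG : NG R (rs.length + 1) := NG_of_finrank _ hlt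
  have H1 := H1_of_gor rs hm hreg hlen K hK hKmin
  have H2 := H2_of_gor rs hm hreg K hK hKmin H1
  obtain h0 | h0 | ⟨d', h0⟩ : rs.length = 0 ∨ rs.length = 1 ∨ ∃ d', rs.length = d' + 2 := by
    rcases rs.length with _ | _ | n
    · left; rfl
    · right; left; rfl
    · right; right; exact ⟨n, rfl⟩
  · refine EA7.C50.dim_zero hk (fun a ha => ?_) f
      (fun M hfin hind => hf M hfin hind ⟨[], by simp, by simp, ?_⟩)
    · rw [h0] at hNG
      refine hNG (fun _ => a) (fun _ => ?_) ?_
      · rw [ha]; exact Ideal.mem_span_singleton_self a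
      · rw [Set.range_const]; exact ha.le
    · rw [← hlen, h0]; simp
  · rw [h0] at H1 hNG
    exact case_one hinf hk' rs hm hreg hlen h0 H1 hNG f hf
  · rw [h0] at H1 H2 hNG
    exact case_two hinf hk rs hm hreg hlen d' h0 H1 H2 hNG f hf

end EA7.C50
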