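import Pool.Agent.Lib.MP_ea7a64_al_c50.Final

/-!
# Gorenstein local rings with few maximal Cohen-Macaulay modules
-/

set_option autoImplicit false

open IsLocalRing

namespace Pool.Agent.Lib.MP_ea7a64_al_c50

/-- `R` is a Gorenstein local ring: some sequence `r_1, …, r_d` in the maximal ideal, `d = dim R`,
is `R`-regular (so `R` is Cohen-Macaulay), and the Artinian ring `R/(r_1, …, r_d)` has a least
nonzero ideal (a simple socle). -/
def IsGorenstein (R : Type) [CommRing R] [IsLocalRing R] : Prop :=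
  ∃ rs : List R, (∀ r ∈ rs, r ∈ maximalIdeal R) ∧ RingTheory.Sequence.IsWeaklyRegular R rs ∧
    (rs.length : WithBot ℕ∞) = ringKrullDim R ∧
    ∃ K : Ideal R, Ideal.ofList rs < K ∧ ∀ K' : Ideal R, Ideal.ofList rs < K' → K ≤ K'

/-- `M` is a maximal Cohen-Macaulay module: `M` is finitely generated and some sequence of length
`dim R` in the maximal ideal is `M`-regular. -/
def IsMCM (R : Type) [CommRing R] [IsLocalRing R] (M : Type) [AddCommGroup M] [Module R M] :
    Prop :=
  Module.Finite R M ∧ ∃ rs : List R, (∀ r ∈ rs, r ∈ maximalIdeal R) ∧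
    RingTheory.Sequence.IsWeaklyRegular M rs ∧ (rs.length : WithBot ℕ∞) = ringKrullDim R

/-- `M` is indecomposable: nonzero and not the direct sum of two nonzero submodules. -/
def IsIndec (R : Type) [CommRing R] (M : Type) [AddCommGroup M] [Module R M] : Prop :=
  Nontrivial M ∧ ∀ N₁ N₂ : Submodule R M, IsCompl N₁ N₂ → N₁ = ⊥ ∨ N₂ = ⊥

/-- The indecomposable maximal Cohen-Macaulay modules over `R`. -/
def IndMCM (R : Type) [CommRing R] [IsLocalRing R] : Type 1 :=
  {M : ModuleCat.{0} R // IsIndec R M ∧ IsMCM R M}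

/-- Isomorphism of modules. -/
def isoSetoid (R : Type) [CommRing R] [IsLocalRing R] : Setoid (IndMCM R) where
  r M N := Nonempty (M.1 ≃ₗ[R] N.1)
  iseqv := ⟨fun M => ⟨LinearEquiv.refl R M.1⟩, fun ⟨e⟩ => ⟨e.symm⟩, fun ⟨e⟩ ⟨e'⟩ => ⟨e.trans e'⟩⟩

/-- The isomorphism classes of indecomposable maximal Cohen-Macaulay modules over `R`. -/
def MCMClasses (R : Type) [CommRing R] [IsLocalRing R] : Type 1 := Quotient (isoSetoid R)

/-- The embedding dimension: the dimension of `m/m²` over the residue field, which is the least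
number of generators of the maximal ideal `m`. -/
noncomputable def embDim (R : Type) [CommRing R] [IsLocalRing R] : ℕ :=
  Module.finrank (ResidueField R) (CotangentSpace R)

theorem few_classes (R : Type) [CommRing R] [IsNoetherianRing R] [IsLocalRing R]
    (hk : Uncountable (ResidueField R)) (hG : IsGorenstein R)
    (h : Cardinal.mk (MCMClasses R) < Cardinal.lift.{1} (Cardinal.mk (ResidueField R))) :
    (embDim R : WithBot ℕ∞) ≤ ringKrullDim R + 1 := by
  classical
  have h1 : Cardinal.mk (MCMClasses R) ≤ Cardinal.mk (ULift.{1} (ResidueField R)) := by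
    rw [Cardinal.mk_uLift]
    exact h.le
  obtain ⟨g⟩ := (Cardinal.le_def _ _).1 h1
  let g' : MCMClasses R → ResidueField R := fun c => (g c).down
  have hg' : Function.Injective g' := fun a b hab => g.injective (ULift.ext _ _ hab)
  let S : Set (ResidueField R) := Set.range g'
  have hS : Cardinal.mk S < Cardinal.mk (ResidueField R) := by
    have h2 := Cardinal.mk_range_eq_of_injective hg'
    rw [← Cardinal.lift_lt.{0, 1}]
    have h3 : Cardinal.lift.{1} (Cardinal.mk S) = Cardinal.mk (MCMClasses R) := by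
      simpa using h2
    rw [h3]
    exact h
  have hI : Cardinal.mk (S ⊕ ℕ) < Cardinal.mk (ResidueField R) := by
    have h4 : Cardinal.aleph0 < Cardinal.mk (ResidueField R) :=
      Cardinal.aleph0_lt_mk_iff.2 hk
    rw [Cardinal.mk_sum, Cardinal.lift_id, Cardinal.lift_id, Cardinal.mk_nat]
    exact Cardinal.add_lt_of_lt h4.le hS h4
  refine EA7.C50.few_index R (I := S ⊕ ℕ) hI hG
    (fun i => Sum.elim (fun s => (Quotient.out (s := isoSetoid R) s.2.choose).1)
      (fun _ => ModuleCat.of R R) i) ?_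
  intro M hfin hind hmcm
  let c : MCMClasses R := Quotient.mk (isoSetoid R) ⟨M, hind, hfin, hmcm⟩
  let s : S := ⟨g' c, c, rfl⟩
  have hs : s.2.choose = c := hg' s.2.choose_spec
  have h5 : (isoSetoid R).r (Quotient.out (s := isoSetoid R) c) ⟨M, hind, hfin, hmcm⟩ :=
    Quotient.mk_out (s := isoSetoid R) (⟨M, hind, hfin, hmcm⟩ : IndMCM R)
  have key : ∀ c' : MCMClasses R, c' = c →
      Nonempty (M ≃ₗ[R] (Quotient.out (s := isoSetoid R) c').1) := by
    rintro _ rfl
    obtain ⟨e⟩ := h5
    exact ⟨e.symm⟩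
  exact ⟨Sum.inl s, key _ hs⟩

end Pool.Agent.Lib.MP_ea7a64_al_c50
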